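import Pool.Agent.L7h19.RP.Defs2
import Pool.Agent.L7h19.RP.Exp
import Pool.Agent.L7h19.RJ.Sub

/-!
# StMod and StSub
-/

set_option autoImplicit false

namespace Pool.Agent.L7h8.RP

open Finset Polynomial Pool.Agent.W262.RK Pool.Agent.L7h19.RJ Pool.Agent.L7h19.RP
open Pool.Agent.H474R2.PG (rho)
open Pool.Agent.W125.RK2 (sum_inter NL_congr)

variable {ι : Type} [Fintype ι] [DecidableEq ι] {J : Type} [Fintype J] [DecidableEq J]

omit [Fintype ι] [DecidableEq ι] [DecidableEq J] in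
lemma NL_mod (cls : ι → J → Option (Fin 4)) (κ κ' : ι → J → Fin 3 → ℤ) (s : J → ℕ)
    (h : ∀ j (p : ℕ), p.Prime → p ∣ s j → ∀ i k, κ i j k ≡ κ' i j k [ZMOD p]) (i : ι)
    (E : Finset ℕ) : NL (∏ j, s j) (LLso (cls i) (κ i) s E) =
      NL (∏ j, s j) (LLso (cls i) (κ' i) s E) := by
  apply NL_congr
  intro p hp
  have hpp := Nat.prime_of_mem_primeFactors hp
  funext v w hh g
  unfold LLso
  apply propext
  refine forall_congr' fun j => imp_congr_right fun hj => ?_
  rw [LLo_mod (c := cls i j) (fun l => h j p hpp hj i l)]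

theorem stMod : StMod := by
  intro ι _ _ J _ _ cls κ κ' s _ h
  refine ⟨?_, fun i E => NL_mod cls κ κ' s h i E⟩
  unfold NBj
  congr 1
  refine sum_congr rfl fun E _ => prod_congr rfl fun i _ => ?_
  rw [NL_mod cls κ κ' s h i E]

/-- the growth for one class -/
theorem subj' (cls : ι → J → Option (Fin 4)) (κ : ι → J → Fin 3 → ℤ) {z y : ℕ} (hz : 2 ≤ z)
    (s e : J → ℕ) (hT : (fun j => s j * e j) ∈ Tup J z y)
    (hκ : ∀ j (p : ℕ), p.Prime → p ∣ s j → ∀ i k, ¬ (p : ℤ) ∣ κ i j k) :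
    NBj cls κ (fun j => s j * e j) ≤
      ((4 : ℝ) ^ Fintype.card ι) ^ (∑ j, (e j).primeFactors.card) * NBj cls κ s := by
  classical
  have hT' : (∀ j, s j * e j ∈ (PP z y).divisors) ∧
      ∀ i j, i ≠ j → (s i * e i).Coprime (s j * e j) := by
    unfold Tup at hT
    rw [mem_filter, Fintype.mem_piFinset] at hT
    exact hT
  have hsqj : ∀ j, Squarefree (s j * e j) := fun j => dv_squarefree (hT'.1 j)
  have hsq : ∀ U : Finset J, Squarefree (∏ j ∈ U, (s j * e j)) := by
    intro U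
    apply Finset.squarefree_prod_of_pairwise_isCoprime
    · intro i _ j _ hij
      exact Nat.coprime_iff_isRelPrime.1 (hT'.2 i j hij)
    · intro j _
      exact hsqj j
  have hsq2 : ∀ U : Finset J, Squarefree ((∏ j ∈ U, s j) * ∏ j ∈ U, e j) := by
    intro U
    rw [← Finset.prod_mul_distrib]
    exact hsq U
  have hs0 : ∀ j, s j ≠ 0 := fun j => left_ne_zero_of_mul (hsqj j).ne_zero
  have he0 : ∀ j, e j ≠ 0 := fun j => right_ne_zero_of_mul (hsqj j).ne_zero
  set P := P3 (tw cls) s with hP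
  set Q := P3 (tw cls) e with hQ
  have hPQ : Disjoint P Q := by
    have h1 := Nat.coprime_of_squarefree_mul (hsq2 (univ.filter (fun j => tw cls j = 3)))
    exact h1.disjoint_primeFactors
  have hPU : P3 (tw cls) (fun j => s j * e j) = P ∪ Q := by
    rw [hP, hQ]
    unfold P3
    rw [Finset.prod_mul_distrib]
    exact Nat.primeFactors_mul (prod_ne_zero_iff.2 fun j _ => hs0 j)
      (prod_ne_zero_iff.2 fun j _ => he0 j)
  have hprod : ∏ j, (s j * e j) = (∏ j, s j) * ∏ j, e j := Finset.prod_mul_distrib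
  have hme : Squarefree ((∏ j, s j) * ∏ j, e j) := hsq2 univ
  -- primes dividing `∏ s`
  have hpr : ∀ p : ℕ, p.Prime → p ∣ ∏ j, s j → ∃ j0, p ∣ s j0 ∧ z < p := by
    intro p hp h
    obtain ⟨j0, _, hj0⟩ := (hp.prime.dvd_finsetProd_iff _).1 h
    refine ⟨j0, hj0, ?_⟩
    exact (dv_prime (hT'.1 j0) hp (hj0.trans (Dvd.intro _ rfl))).1
  have hiff : ∀ p : ℕ, p.Prime → p ∣ ∏ j, s j → ∀ j, p ∣ s j * e j ↔ p ∣ s j := by
    intro p hp h j
    constructor
    · intro hj
      obtain ⟨j0, hj0, _⟩ := hpr p hp h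
      by_cases hjj : j = j0
      · rw [hjj]
        exact hj0
      · exfalso
        have h1 := hT'.2 j j0 hjj
        have h2 : p ∣ (s j * e j).gcd (s j0 * e j0) := Nat.dvd_gcd hj (hj0.trans (Dvd.intro _ rfl))
        rw [h1.gcd_eq_one] at h2
        exact hp.one_lt.ne' (Nat.dvd_one.1 h2)
    · intro hj
      exact hj.trans (Dvd.intro _ rfl)
  have hXC : ∀ i, ∀ E : Finset ℕ, ∀ p, p.Prime → p ∣ ∏ j, s j →
      XC (LLso (cls i) (κ i) (fun j => s j * e j) E p) := by
    intro i E p hp h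
    obtain ⟨_, _, hzp⟩ := hpr p hp h
    have h1 : ∀ j, p ∣ s j * e j → XC (LLo (cls i j) (κ i j) (decide (p ∈ E)) p) := by
      intro j hj
      exact xc_o hp (by omega) (hκ j p hp ((hiff p hp h j).1 hj) i)
    constructor
    · intro j hj
      exact (h1 j hj).1
    · intro a b c d a' b' c' d' g g' j hj
      exact (h1 j hj).2 _ _ _ _ _ _ _ _ (g j hj) (g' j hj)
  have hNL : ∀ i, ∀ E : Finset ℕ, NL (∏ j, s j) (LLso (cls i) (κ i) (fun j => s j * e j) E) =
      NL (∏ j, s j) (LLso (cls i) (κ i) s (E ∩ P)) := by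
    intro i E
    apply NL_congr
    intro p hp
    have hpp := Nat.prime_of_mem_primeFactors hp
    have hpd := Nat.dvd_of_mem_primeFactors hp
    funext v w h g
    unfold LLso
    apply propext
    apply forall_congr'
    intro j
    rw [hiff p hpp hpd j]
    apply imp_congr_right
    intro hj
    by_cases hc : cls i j = some 3
    · have hmem : p ∈ P := by
        rw [hP]
        unfold P3
        rw [Nat.mem_primeFactors]
        refine ⟨hpp, hj.trans (dvd_prod_of_mem s (mem_filter.2 ⟨mem_univ _, ?_⟩)), ?_⟩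
        · unfold tw
          rw [if_pos ⟨i, hc⟩]
        · exact prod_ne_zero_iff.2 fun j _ => hs0 j
      have : (p ∈ E ∩ P) ↔ p ∈ E := by
        rw [mem_inter]
        exact ⟨fun h => h.1, fun h => ⟨h, hmem⟩⟩
      simp only [this]
    · rw [LLo_neg' hc (κ i j) (decide (p ∈ E)) (decide (p ∈ E ∩ P)) p]
  have hω : (∏ j, e j).primeFactors.card ≤ ∑ j, (e j).primeFactors.card := by
    have h1 : (∏ j, e j).primeFactors ⊆ univ.biUnion (fun j => (e j).primeFactors) := by
      intro p hp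
      rw [mem_biUnion]
      have hpp := Nat.prime_of_mem_primeFactors hp
      obtain ⟨j, _, hj⟩ := (hpp.prime.dvd_finsetProd_iff _).1 (Nat.dvd_of_mem_primeFactors hp)
      exact ⟨j, mem_univ _, Nat.mem_primeFactors.2 ⟨hpp, hj, he0 j⟩⟩
    exact (Finset.card_le_card h1).trans card_biUnion_le
  have hstep : ∀ i, ∀ E : Finset ℕ,
      (NL (∏ j, (s j * e j)) (LLso (cls i) (κ i) (fun j => s j * e j) E) : ℝ) ≤
      4 ^ (∑ j, (e j).primeFactors.card) *
        (NL (∏ j, s j) (LLso (cls i) (κ i) s (E ∩ P)) : ℝ) := by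
    intro i E
    have h1 := Pool.Agent.W125.RK2.sub4 (∏ j, s j) (∏ j, e j)
      (LLso (cls i) (κ i) (fun j => s j * e j) E) hme (hXC i E)
    rw [hNL i E] at h1
    rw [hprod]
    have h2 : (NL ((∏ j, s j) * ∏ j, e j) (LLso (cls i) (κ i) (fun j => s j * e j) E) : ℝ) ≤
        4 ^ (∏ j, e j).primeFactors.card *
          (NL (∏ j, s j) (LLso (cls i) (κ i) s (E ∩ P)) : ℝ) := by
      exact_mod_cast h1
    refine h2.trans ?_
    apply mul_le_mul_of_nonneg_right _ (Nat.cast_nonneg _)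
    exact pow_le_pow_right₀ (by norm_num) hω
  have hstep2 : ∀ E : Finset ℕ,
      ∏ i, (NL (∏ j, (s j * e j)) (LLso (cls i) (κ i) (fun j => s j * e j) E) : ℝ) ≤
      ((4 : ℝ) ^ Fintype.card ι) ^ (∑ j, (e j).primeFactors.card) *
        ∏ i, (NL (∏ j, s j) (LLso (cls i) (κ i) s (E ∩ P)) : ℝ) := by
    intro E
    refine (Finset.prod_le_prod (fun i _ => Nat.cast_nonneg _) (fun i _ => hstep i E)).trans ?_
    rw [Finset.prod_mul_distrib, Finset.prod_const, Finset.card_univ, ← pow_mul, ← pow_mul,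
      mul_comm (Fintype.card ι)]
  unfold NBj
  rw [hPU, ← hP, card_union_of_disjoint hPQ]
  set N := ∑ j, (e j).primeFactors.card with hN
  calc (1 / 2 : ℝ) ^ (P.card + Q.card) *
      ∑ E ∈ (P ∪ Q).powerset,
        ∏ i, (NL (∏ j, (s j * e j)) (LLso (cls i) (κ i) (fun j => s j * e j) E) : ℝ) ≤
      (1 / 2 : ℝ) ^ (P.card + Q.card) * ∑ E ∈ (P ∪ Q).powerset,
        ((4 : ℝ) ^ Fintype.card ι) ^ N *
          ∏ i, (NL (∏ j, s j) (LLso (cls i) (κ i) s (E ∩ P)) : ℝ) := by
        apply mul_le_mul_of_nonneg_left _ (by positivity)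
        exact Finset.sum_le_sum fun E _ => hstep2 E
    _ = ((4 : ℝ) ^ Fintype.card ι) ^ N * ((1 / 2 : ℝ) ^ P.card *
        ∑ E ∈ P.powerset, ∏ i, (NL (∏ j, s j) (LLso (cls i) (κ i) s E) : ℝ)) := by
        rw [← Finset.mul_sum, sum_inter P Q hPQ
          (fun E => ∏ i, (NL (∏ j, s j) (LLso (cls i) (κ i) s E) : ℝ)), pow_add]
        have h2 : (1 / 2 : ℝ) ^ Q.card * 2 ^ Q.card = 1 := by
          rw [← mul_pow]
          norm_num
        linear_combination (((4 : ℝ) ^ Fintype.card ι) ^ N * ((1 / 2 : ℝ) ^ P.card *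
          ∑ E ∈ P.powerset, ∏ i, (NL (∏ j, s j) (LLso (cls i) (κ i) s E) : ℝ))) * h2

/-- the lifts of a class: at most `c ^ ω(m')` -/
theorem fiber (f : J → ℤ[X]) (z c : ℕ)
    (hρ : ∀ p : ℕ, p.Prime → z < p → ∀ j, rho (f j) p ≤ c) (e : J → ℕ) (m : ℕ)
    (hm : Squarefree (m * ∏ j, e j)) (hz : ∀ p : ℕ, p.Prime → ∀ j, p ∣ e j → z < p) (r0 : ℕ) :
    ((range (m * ∏ j, e j)).filter (fun r : ℕ => r % m = r0 ∧
      ∀ j, (e j : ℤ) ∣ (f j).eval (r : ℤ))).card ≤ c ^ (∏ j, e j).primeFactors.card := by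
  classical
  set m' := ∏ j, e j with hm'
  have hm'0 : m' ≠ 0 := right_ne_zero_of_mul hm.ne_zero
  have hm0 : m ≠ 0 := left_ne_zero_of_mul hm.ne_zero
  have hsq' : Squarefree m' := hm.squarefree_of_dvd (dvd_mul_left _ _)
  have hcop : m.Coprime m' := Nat.coprime_of_squarefree_mul hm
  let R : m'.primeFactors → Finset ℕ := fun p =>
    (range p).filter (fun a : ℕ => ∀ j, (p : ℕ) ∣ e j → ((p : ℕ) : ℤ) ∣ (f j).eval (a : ℤ))
  have hR : ∀ p, (R p).card ≤ c := by
    intro p
    have hpp := Nat.prime_of_mem_primeFactors p.2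
    obtain ⟨j, _, hj⟩ := (hpp.prime.dvd_finsetProd_iff _).1 (Nat.dvd_of_mem_primeFactors p.2)
    refine le_trans (card_le_card ?_) (hρ p hpp (hz p hpp j hj) j)
    intro a ha
    rw [mem_filter] at ha ⊢
    exact ⟨ha.1, ha.2 j hj⟩
  have h1 : ((range (m * m')).filter (fun r : ℕ => r % m = r0 ∧
      ∀ j, (e j : ℤ) ∣ (f j).eval (r : ℤ))).card ≤ (Fintype.piFinset R).card := by
    refine card_le_card_of_injOn (fun r => fun p : m'.primeFactors => r % (p : ℕ)) ?_ ?_
    · intro r hr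
      rw [mem_coe, mem_filter] at hr
      rw [mem_coe, Fintype.mem_piFinset]
      intro p
      have hpp := Nat.prime_of_mem_primeFactors p.2
      rw [mem_filter]
      refine ⟨mem_range.2 (Nat.mod_lt _ hpp.pos), fun j hj => ?_⟩
      have h2 : ((p : ℕ) : ℤ) ∣ (f j).eval (r : ℤ) :=
        (Int.natCast_dvd_natCast.2 hj).trans (hr.2.2 j)
      exact (eval_mod (f j) (mod_self r p)).dvd_iff.2 h2
    · intro r hr r' hr' h
      rw [mem_coe, mem_filter, mem_range] at hr hr'
      have h2 : r ≡ r' [MOD m] := by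
        unfold Nat.ModEq
        rw [hr.2.1, hr'.2.1]
      have h3 : r ≡ r' [MOD m'] := by
        have h4 : ∀ p ∈ m'.primeFactors, (p : ℤ) ∣ (r : ℤ) - r' := by
          intro p hp
          have h5 := congrFun h ⟨p, hp⟩
          have h6 : r ≡ r' [MOD p] := h5
          have := (Nat.modEq_iff_dvd.1 h6.symm)
          exact this
        have h7 : (m' : ℤ) ∣ (r : ℤ) - r' := by
          have h8 : (m' : ℤ) = ∏ p ∈ m'.primeFactors, (p : ℤ) := by
            conv_lhs => rw [← Nat.prod_primeFactors_of_squarefree hsq']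
            push_cast
            rfl
          rw [h8]
          refine Finset.prod_dvd_of_coprime ?_ h4
          intro p hp q hq hpq
          exact Nat.isCoprime_iff_coprime.2 ((Nat.coprime_primes
            (Nat.prime_of_mem_primeFactors hp) (Nat.prime_of_mem_primeFactors hq)).2 hpq)
        exact (Nat.modEq_iff_dvd.2 h7).symm
      have h9 : r ≡ r' [MOD m * m'] := (Nat.modEq_and_modEq_iff_modEq_mul hcop).1 ⟨h2, h3⟩
      exact Nat.ModEq.eq_of_lt_of_lt h9 hr.1 hr'.1
  refine h1.trans ?_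
  rw [Fintype.card_piFinset]
  calc ∏ p, (R p).card ≤ ∏ _p : m'.primeFactors, c :=
        Finset.prod_le_prod (fun _ _ => Nat.zero_le _) fun p _ => hR p
    _ = c ^ m'.primeFactors.card := by
        rw [prod_const, card_univ, Fintype.card_coe]

theorem stSub : StSub := by
  intro ι _ _ J _ _ cls κ f z c hz hρ hκ y hy s e hT
  classical
  have hT' : (∀ j, s j * e j ∈ (PP z y).divisors) ∧
      ∀ i j, i ≠ j → (s i * e i).Coprime (s j * e j) := by
    unfold Tup at hT
    rw [mem_filter, Fintype.mem_piFinset] at hT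
    exact hT
  have hsqj : ∀ j, Squarefree (s j * e j) := fun j => dv_squarefree (hT'.1 j)
  have hsq : Squarefree (∏ j, (s j * e j)) := by
    apply Finset.squarefree_prod_of_pairwise_isCoprime
    · intro i _ j _ hij
      exact Nat.coprime_iff_isRelPrime.1 (hT'.2 i j hij)
    · intro j _
      exact hsqj j
  have hprod : ∏ j, (s j * e j) = (∏ j, s j) * ∏ j, e j := Finset.prod_mul_distrib
  have hme : Squarefree ((∏ j, s j) * ∏ j, e j) := hprod ▸ hsq
  have hs0 : ∀ j, s j ≠ 0 := fun j => left_ne_zero_of_mul (hsqj j).ne_zero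
  have he0 : ∀ j, e j ≠ 0 := fun j => right_ne_zero_of_mul (hsqj j).ne_zero
  have hzp : ∀ p : ℕ, p.Prime → ∀ j, p ∣ s j * e j → z < p := fun p hp j hj =>
    (dv_prime (hT'.1 j) hp hj).1
  set m := ∏ j, s j with hm
  have hm0 : m ≠ 0 := prod_ne_zero_iff.2 fun j _ => hs0 j
  set N := ∑ j, (e j).primeFactors.card with hN
  have hω : (∏ j, e j).primeFactors.card = N := by
    have h1 : (∏ j, e j).primeFactors = univ.biUnion (fun j => (e j).primeFactors) := by
      ext p
      rw [mem_biUnion]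
      constructor
      · intro hp
        have hpp := Nat.prime_of_mem_primeFactors hp
        obtain ⟨j, _, hj⟩ := (hpp.prime.dvd_finsetProd_iff _).1 (Nat.dvd_of_mem_primeFactors hp)
        exact ⟨j, mem_univ _, Nat.mem_primeFactors.2 ⟨hpp, hj, he0 j⟩⟩
      · rintro ⟨j, _, hp⟩
        exact Nat.mem_primeFactors.2 ⟨Nat.prime_of_mem_primeFactors hp,
          (Nat.dvd_of_mem_primeFactors hp).trans (dvd_prod_of_mem _ (mem_univ j)),
          prod_ne_zero_iff.2 fun j _ => he0 j⟩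
    rw [h1, card_biUnion]
    intro i _ j _ hij
    have h2 : (e i).Coprime (e j) :=
      Nat.Coprime.of_dvd (dvd_mul_left _ _) (dvd_mul_left _ _) (hT'.2 i j hij)
    exact h2.disjoint_primeFactors
  -- step 1
  have h1 : NBr cls κ f (fun j => s j * e j) ≤
      ((4 : ℝ) ^ Fintype.card ι) ^ N * ∑ r ∈ Rs f (fun j => s j * e j),
        NBj cls (κev κ (r : ℤ)) s := by
    unfold NBr
    rw [mul_sum]
    refine sum_le_sum fun r hr => ?_
    refine subj' cls (κev κ (r : ℤ)) hz s e hT ?_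
    intro j p hp hpj i k
    unfold Rs at hr
    rw [mem_filter] at hr
    have h2 : (p : ℤ) ∣ (f j).eval (r : ℤ) :=
      (Int.natCast_dvd_natCast.2 (hpj.trans (Dvd.intro _ rfl))).trans (hr.2 j)
    exact hκ p hp (hzp p hp j (hpj.trans (Dvd.intro _ rfl))) j r h2 i k
  -- step 2
  have h3 : ∑ r ∈ Rs f (fun j => s j * e j), NBj cls (κev κ (r : ℤ)) s ≤
      (c : ℝ) ^ N * NBr cls κ f s := by
    have hmaps : ∀ r ∈ Rs f (fun j => s j * e j), r % m ∈ Rs f s := by
      intro r hr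
      unfold Rs at hr ⊢
      rw [mem_filter] at hr ⊢
      refine ⟨mem_range.2 (Nat.mod_lt _ (Nat.pos_of_ne_zero hm0)), fun j => ?_⟩
      have h4 : (s j : ℤ) ∣ (f j).eval (r : ℤ) := by
        refine Dvd.dvd.trans ?_ (hr.2 j)
        push_cast
        exact dvd_mul_right _ _
      have h5 : ((r % m : ℕ) : ℤ) ≡ (r : ℤ) [ZMOD (s j : ℕ)] :=
        (mod_self r m).of_dvd (Int.natCast_dvd_natCast.2 (dvd_prod_of_mem _ (mem_univ j)))
      exact (eval_mod (f j) h5).dvd_iff.2 h4
    have hval : ∀ r ∈ Rs f (fun j => s j * e j), NBj cls (κev κ (r : ℤ)) s =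
        NBj cls (κev κ ((r % m : ℕ) : ℤ)) s := by
      intro r _
      refine (stMod ι J cls _ _ s hs0 ?_).1
      intro j p _ hpj i k
      unfold κev
      refine eval_mod _ ?_
      exact ((mod_self r m).of_dvd (Int.natCast_dvd_natCast.2
        (hpj.trans (dvd_prod_of_mem _ (mem_univ j))))).symm
    rw [sum_congr rfl hval, ← sum_fiberwise_of_maps_to hmaps
      (fun r => NBj cls (κev κ ((r % m : ℕ) : ℤ)) s)]
    unfold NBr
    rw [mul_sum]
    refine sum_le_sum fun r0 hr0 => ?_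
    have h6 : ∑ r ∈ (Rs f (fun j => s j * e j)).filter (fun r => r % m = r0),
        NBj cls (κev κ ((r % m : ℕ) : ℤ)) s =
        (((Rs f (fun j => s j * e j)).filter (fun r => r % m = r0)).card : ℝ) *
          NBj cls (κev κ (r0 : ℤ)) s := by
      rw [sum_congr rfl (g := fun _ => NBj cls (κev κ (r0 : ℤ)) s) ?_, sum_const, nsmul_eq_mul]
      intro r hr
      rw [(mem_filter.1 hr).2]
    rw [h6]
    refine mul_le_mul_of_nonneg_right ?_ (NBj_nonneg _ _ _)
    have h7 := fiber f z c hρ e m hme (fun p hp j hj => hzp p hp j (hj.trans (dvd_mul_left _ _))) r0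
    rw [hω] at h7
    have h8 : ((Rs f (fun j => s j * e j)).filter (fun r => r % m = r0)).card ≤
        ((range (m * ∏ j, e j)).filter (fun r : ℕ => r % m = r0 ∧
          ∀ j, (e j : ℤ) ∣ (f j).eval (r : ℤ))).card := by
      refine card_le_card ?_
      intro r hr
      rw [mem_filter] at hr ⊢
      obtain ⟨hr, hr2⟩ := hr
      unfold Rs at hr
      rw [mem_filter, hprod] at hr
      refine ⟨hr.1, hr2, fun j => ?_⟩
      refine Dvd.dvd.trans ?_ (hr.2 j)
      push_cast
      exact dvd_mul_left _ _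
    exact_mod_cast h8.trans h7
  calc NBr cls κ f (fun j => s j * e j) ≤ ((4 : ℝ) ^ Fintype.card ι) ^ N *
        ∑ r ∈ Rs f (fun j => s j * e j), NBj cls (κev κ (r : ℤ)) s := h1
    _ ≤ ((4 : ℝ) ^ Fintype.card ι) ^ N * ((c : ℝ) ^ N * NBr cls κ f s) :=
        mul_le_mul_of_nonneg_left h3 (by positivity)
    _ = ((4 : ℝ) ^ Fintype.card ι * c) ^ N * NBr cls κ f s := by
        rw [mul_pow]; ring

end Pool.Agent.L7h8.RP
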